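import Pool.Agent.Helper44.HD.GoalsQ

/-!
# Project HD (MP_e5f486_ag), packet QH
-/

set_option autoImplicit false

open Finset
open scoped TensorProduct

namespace Pool.Agent.Helper25.HD

open Pool.Agent.Helper44.HD

theorem blk_mem {k G R v w : Type} [Field k] [Group G] [Ring R] [Algebra k R]
    [MulSemiringAction G R] [SMulCommClass G k R] {D : RedGroup k G}
    [Fintype v] [DecidableEq v] [Fintype w] [DecidableEq w] (V : MRep D v) (W : MRep D w)
    {A : Matrix w v R} (hA : A ∈ Hm R V W) :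
    (Matrix.fromBlocks 0 0 A 0 : Matrix (v ⊕ w) (v ⊕ w) R) ∈ Hm R (V.sum W) (V.sum W) := by
  have hA' : ∀ (g : G) (i : w) (j : v), ∑ a, W.m g i a • (g • A a j) = ∑ b, V.m g b j • A i b := hA
  rintro g (i | i) (j | j)
  · simp [MRep.sum, Fintype.sum_sum_type]
  · simp [MRep.sum, Fintype.sum_sum_type]
  · simpa [MRep.sum, Fintype.sum_sum_type] using hA' g i j
  · simp [MRep.sum, Fintype.sum_sum_type]

theorem qh : StmtQH := by
  intro k G R v w _ _ _ _ _ _ D _ _ _ _ V W hP
  have : FiniteDimensional k (EE R (V.sum W)) := hP (v ⊕ w) (V.sum W)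
  let f : Hm R V W →ₗ[k] EE R (V.sum W) :=
    { toFun := fun A => ⟨Matrix.fromBlocks 0 0 A.1 0, blk_mem V W A.2⟩
      map_add' := by
        intro A B
        apply Subtype.ext
        change Matrix.fromBlocks 0 0 (A.1 + B.1) 0 =
          (Matrix.fromBlocks 0 0 A.1 0 + Matrix.fromBlocks 0 0 B.1 0 : Matrix (v ⊕ w) (v ⊕ w) R)
        rw [Matrix.fromBlocks_add]
        simp
      map_smul' := by
        intro c A
        apply Subtype.ext
        change Matrix.fromBlocks 0 0 (c • A.1) 0 =
          (c • Matrix.fromBlocks 0 0 A.1 0 : Matrix (v ⊕ w) (v ⊕ w) R)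
        rw [Matrix.fromBlocks_smul]
        simp }
  refine FiniteDimensional.of_injective f ?_
  intro A B hAB
  apply Subtype.ext
  have h := congrArg Subtype.val hAB
  have h' : (Matrix.fromBlocks 0 0 A.1 0 : Matrix (v ⊕ w) (v ⊕ w) R) =
      Matrix.fromBlocks 0 0 B.1 0 := h
  exact (Matrix.fromBlocks_inj.mp h').2.2.1

end Pool.Agent.Helper25.HD
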